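import Pool.Agent.Y571.NX.Stm

/-!
# From three to more dimensions (project NX, job 10168)

`isSRW_of_streamD` is adapted from `isSRW_of_stream3` of the starting file
`Pool/Agent/Results/MP_e4a9a7_pr/FullAnswer.lean`.
-/

set_option autoImplicit false

namespace Pool.Agent.Y931.NX

open MeasureTheory ProbabilityTheory Pool.Agent.Helper41.GF
open Pool.Agent.Results.MP_e4a9a7_pr.FullAnswer
open Pool.Agent.Y571.NX
open scoped ENNReal

variable {d : ℕ}

lemma vecD_pos (s : Fin d × Bool) (i : Fin d) : vecD s = Pi.single i 1 ↔ s = (i, true) := by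
  obtain ⟨j, b⟩ := s
  unfold vecD
  constructor
  · intro h
    have h1 := congrFun h i
    simp only [Pi.single_eq_same] at h1
    by_cases hij : i = j
    · subst hij
      rw [Pi.single_eq_same] at h1
      cases b
      · norm_num at h1
      · rfl
    · rw [Pi.single_eq_of_ne hij] at h1
      exact absurd h1 (by decide)
  · intro h
    obtain ⟨rfl, rfl⟩ := Prod.mk.inj h
    rfl

lemma vecD_neg (s : Fin d × Bool) (i : Fin d) : vecD s = Pi.single i (-1) ↔ s = (i, false) := by
  obtain ⟨j, b⟩ := s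
  unfold vecD
  constructor
  · intro h
    have h1 := congrFun h i
    simp only [Pi.single_eq_same] at h1
    by_cases hij : i = j
    · subst hij
      rw [Pi.single_eq_same] at h1
      cases b
      · rfl
      · norm_num at h1
    · rw [Pi.single_eq_of_ne hij] at h1
      exact absurd h1 (by decide)
  · intro h
    obtain ⟨rfl, rfl⟩ := Prod.mk.inj h
    rfl

lemma lawD_singleton (s : Fin d × Bool) : lawD d {s} = 1 / (2 * (d : ℝ≥0∞)) := by
  unfold lawD
  rw [Measure.smul_apply, Measure.count_singleton, smul_eq_mul, mul_one, one_div]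

lemma lawD_prob (hd : 0 < d) : IsProbabilityMeasure (lawD d) := by
  constructor
  unfold lawD
  rw [Measure.smul_apply, Measure.count_univ, smul_eq_mul]
  have h1 : ((ENat.card (Fin d × Bool) : ℕ∞) : ℝ≥0∞) = 2 * (d : ℝ≥0∞) := by
    rw [ENat.card_eq_coe_fintype_card, Fintype.card_prod, Fintype.card_fin, Fintype.card_bool]
    push_cast
    rw [mul_comm]
  rw [h1]
  refine ENNReal.inv_mul_cancel ?_ ?_
  · have : (d : ℝ≥0∞) ≠ 0 := by exact_mod_cast hd.ne'
    exact mul_ne_zero (by norm_num) this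
  · exact ENNReal.mul_ne_top (by norm_num) (ENNReal.natCast_ne_top d)

lemma meas_SD (n : ℕ) : Measurable (SD (d := d) n) := by
  unfold SD
  refine Finset.measurable_fun_sum _ (fun i _ => ?_)
  exact (measurable_of_finite vecD).comp (measurable_pi_apply i)

/-- A stream with the law of i.i.d. uniform steps drives a simple random walk. -/
lemma isSRW_of_streamD (hd : 0 < d) {Ω : Type} [MeasurableSpace Ω] {P : Measure Ω}
    [IsProbabilityMeasure P] {ξ : Ω → ℕ → Fin d × Bool} (hm : Measurable ξ)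
    (hξ : P.map ξ = Measure.infinitePi fun _ : ℕ => lawD d) (x : Fin d → ℤ) :
    IsSRW P x (fun n ω => x + SD n (ξ ω)) := by
  haveI hsp : IsProbabilityMeasure (lawD d) := lawD_prob hd
  have hvec : Measurable (vecD (d := d)) := measurable_of_finite _
  have hdiff : ∀ (n : ℕ) (ω : Ω), x + SD (n + 1) (ξ ω) - (x + SD n (ξ ω)) = vecD (ξ ω n) := by
    intro n ω
    unfold SD
    rw [Finset.sum_range_succ]
    abel
  have hone : ∀ n, P.map (fun ω => vecD (ξ ω n)) = (lawD d).map vecD := by
    intro n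
    have e : (fun ω => vecD (ξ ω n)) = (fun u : ℕ → Fin d × Bool => vecD (u n)) ∘ ξ := rfl
    rw [e, ← Measure.map_map (by fun_prop) hm, hξ]
    have e2 : (fun u : ℕ → Fin d × Bool => vecD (u n))
        = vecD ∘ (fun u : ℕ → Fin d × Bool => u n) := rfl
    rw [e2, ← Measure.map_map hvec (by fun_prop)]
    rw [Measure.infinitePi_map_eval]
  have hmeas : ∀ v : Fin d → ℤ, MeasurableSet ({v} : Set (Fin d → ℤ)) :=
    fun v => MeasurableSet.singleton v
  refine ⟨?_, ?_, ?_, ?_⟩
  · intro n
    have h1 : Measurable (fun z : Fin d → ℤ => x + z) := Measurable.of_discrete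
    exact h1.comp ((meas_SD n).comp hm)
  · intro ω
    show x + SD 0 (ξ ω) = x
    simp [SD]
  · have e : (fun n ω => x + SD (n + 1) (ξ ω) - (x + SD n (ξ ω)))
        = fun n ω => vecD (ξ ω n) := by
      funext n ω
      exact hdiff n ω
    show iIndepFun (fun n ω => x + SD (n + 1) (ξ ω) - (x + SD n (ξ ω))) P
    have hmn : ∀ n, Measurable (fun ω => vecD (ξ ω n)) :=
      fun n => hvec.comp ((measurable_pi_apply n).comp hm)
    rw [e, iIndepFun_iff_map_fun_eq_infinitePi_map hmn]
    have e3 : (fun ω n => vecD (ξ ω n))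
        = (fun (u : ℕ → Fin d × Bool) n => vecD (u n)) ∘ ξ := rfl
    have : (fun n => P.map (fun ω => vecD (ξ ω n))) = fun _ => (lawD d).map vecD := by
      funext n
      exact hone n
    rw [this, e3, ← Measure.map_map (by fun_prop) hm, hξ]
    exact Measure.infinitePi_map_pi _ (fun _ => hvec)
  · intro n i
    have key : ∀ (v : Fin d → ℤ) (s : Fin d × Bool), (∀ s', vecD s' = v ↔ s' = s) →
        P {ω | x + SD (n + 1) (ξ ω) - (x + SD n (ξ ω)) = v} = 1 / (2 * (d : ℝ≥0∞)) := by
      intro v s hvs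
      have e : {ω | x + SD (n + 1) (ξ ω) - (x + SD n (ξ ω)) = v}
          = (fun ω => vecD (ξ ω n)) ⁻¹' {v} := by
        ext ω
        simp only [Set.mem_ofPred_eq, Set.mem_preimage, Set.mem_singleton_iff, hdiff]
      have hmn : Measurable (fun ω => vecD (ξ ω n)) :=
        hvec.comp ((measurable_pi_apply n).comp hm)
      rw [e, ← Measure.map_apply hmn (hmeas _), hone n, Measure.map_apply hvec (hmeas _)]
      have e2 : vecD ⁻¹' {v} = {s} := by
        ext s'
        simp only [Set.mem_preimage, Set.mem_singleton_iff]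
        exact hvs s'
      rw [e2, lawD_singleton]
    exact ⟨key _ (i, true) (fun s' => vecD_pos s' i),
      key _ (i, false) (fun s' => vecD_neg s' i)⟩

lemma cnt_succ (ι : Fin 3 → Fin d) (V : ℕ → Fin d × Bool) (n : ℕ) :
    cnt ι V (n + 1) = cnt ι V n + (if (V n).1 ∈ Set.range ι then 1 else 0) := by
  classical
  unfold Pool.Agent.Y571.NX.cnt
  rw [Finset.range_add_one, Finset.filter_insert]
  by_cases h : (V n).1 ∈ Set.range ι
  · rw [if_pos h, if_pos h, Finset.card_insert_of_notMem]
    simp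
  · rw [if_neg h, if_neg h, add_zero]

lemma coord {ι : Fin 3 → Fin d} (hι : Function.Injective ι) (V : ℕ → Fin d × Bool) (u : Str)
    (n : ℕ) : ∀ j : Fin 3, SD n (mrg ι V u) (ι j) = SS (cnt ι V n) u j := by
  classical
  induction n with
  | zero =>
    intro j
    have h1 : cnt ι V 0 = 0 := by simp [Pool.Agent.Y571.NX.cnt]
    rw [h1]
    simp [SD, SS]
  | succ n ih =>
    intro j
    have h1 : SD (n + 1) (mrg ι V u) (ι j)
        = SD n (mrg ι V u) (ι j) + vecD (mrg ι V u n) (ι j) := by
      unfold SD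
      rw [Finset.sum_range_succ]
      rfl
    rw [h1, ih j, cnt_succ]
    by_cases h : (V n).1 ∈ Set.range ι
    · rw [if_pos h]
      have h2 : mrg ι V u n = (ι (u (cnt ι V n)).1, (u (cnt ι V n)).2) := by
        unfold mrg
        rw [if_pos h]
      have h3 : SS (cnt ι V n + 1) u j = SS (cnt ι V n) u j + vec (u (cnt ι V n)) j := by
        unfold SS
        rw [Finset.sum_range_succ]
        rfl
      rw [h2, h3]
      congr 1
      unfold vecD vec
      simp only
      by_cases hj : j = (u (cnt ι V n)).1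
      · rw [hj, Pi.single_eq_same, Pi.single_eq_same]
      · rw [Pi.single_eq_of_ne hj, Pi.single_eq_of_ne (fun h4 => hj (hι h4))]
    · rw [if_neg h, add_zero]
      have h2 : mrg ι V u n = V n := by
        unfold mrg
        rw [if_neg h]
      rw [h2]
      unfold vecD
      rw [Pi.single_eq_of_ne (fun h4 => h ⟨j, h4⟩), add_zero]

lemma meas_cnt (ι : Fin 3 → Fin d) (n : ℕ) : Measurable fun V => cnt ι V n := by
  induction n with
  | zero =>
    have : (fun V => cnt ι V 0) = fun _ => 0 := by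
      funext V
      simp [Pool.Agent.Y571.NX.cnt]
    rw [this]
    exact measurable_const
  | succ n ih =>
    simp only [cnt_succ]
    refine ih.add ?_
    have h1 : Measurable fun s : Fin d × Bool => (if s.1 ∈ Set.range ι then (1 : ℕ) else 0) :=
      measurable_of_finite _
    exact h1.comp (measurable_pi_apply n)

lemma meas_mrg (ι : Fin 3 → Fin d) :
    Measurable fun z : (ℕ → Fin d × Bool) × Str => mrg ι z.1 z.2 := by
  classical
  rw [measurable_pi_iff]
  intro n
  have h1 : Measurable fun z : (ℕ → Fin d × Bool) × Str => z.2 (cnt ι z.1 n) := by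
    intro s hs
    have h2 : (fun z : (ℕ → Fin d × Bool) × Str => z.2 (cnt ι z.1 n)) ⁻¹' s
        = ⋃ k : ℕ, ({z | cnt ι z.1 n = k} ∩ {z | z.2 k ∈ s}) := by
      ext z
      simp only [Set.mem_preimage, Set.mem_iUnion, Set.mem_inter_iff, Set.mem_ofPred_eq]
      exact ⟨fun h => ⟨_, rfl, h⟩, fun ⟨k, hk, h⟩ => by rw [hk]; exact h⟩
    rw [h2]
    refine MeasurableSet.iUnion fun k => MeasurableSet.inter ?_ ?_
    · exact ((meas_cnt ι n).comp measurable_fst) (measurableSet_singleton k)
    · exact ((measurable_pi_apply k).comp measurable_snd) hs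
  have h3 : Measurable fun z : (ℕ → Fin d × Bool) × Str => (z.1 n, z.2 (cnt ι z.1 n)) :=
    ((measurable_pi_apply n).comp measurable_fst).prodMk h1
  have h4 : Measurable fun q : (Fin d × Bool) × Stp =>
      (if q.1.1 ∈ Set.range ι then (ι q.2.1, q.2.2) else q.1) := measurable_of_finite _
  exact h4.comp h3

theorem lift (h : S_MERGE) : S_LIFT := by
  intro d ι hι x y hμ
  obtain ⟨μ, hμ, h1, h2, hpos⟩ := hμ
  have hd : 0 < d := Fin.pos (ι 0)
  haveI hlp : IsProbabilityMeasure (lawD d) := lawD_prob hd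
  set lam : Measure (ℕ → Fin d × Bool) := Measure.infinitePi fun _ : ℕ => lawD d with hlam
  haveI : IsProbabilityMeasure lam := by rw [hlam]; infer_instance
  have hm1 : Measurable fun ω : ((ℕ → Fin d × Bool) × (ℕ → Fin d × Bool)) × (Str × Str) =>
      mrg ι ω.1.1 ω.2.1 := (meas_mrg ι).comp (by fun_prop :
      Measurable fun ω : ((ℕ → Fin d × Bool) × (ℕ → Fin d × Bool)) × (Str × Str) =>
        (ω.1.1, ω.2.1))
  have hm2 : Measurable fun ω : ((ℕ → Fin d × Bool) × (ℕ → Fin d × Bool)) × (Str × Str) =>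
      mrg ι ω.1.2 ω.2.2 := (meas_mrg ι).comp (by fun_prop :
      Measurable fun ω : ((ℕ → Fin d × Bool) × (ℕ → Fin d × Bool)) × (Str × Str) =>
        (ω.1.2, ω.2.2))
  have hl1 : ((lam.prod lam).prod μ).map (fun ω => mrg ι ω.1.1 ω.2.1) = lam := by
    have e : (fun ω : ((ℕ → Fin d × Bool) × (ℕ → Fin d × Bool)) × (Str × Str) =>
        mrg ι ω.1.1 ω.2.1) = (fun z : (ℕ → Fin d × Bool) × Str => mrg ι z.1 z.2) ∘
          (Prod.map Prod.fst Prod.fst) := rfl
    rw [e, ← Measure.map_map (meas_mrg ι) (measurable_fst.prodMap measurable_fst),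
      ← Measure.map_prod_map _ _ measurable_fst measurable_fst, Measure.map_fst_prod,
      measure_univ, one_smul, h1]
    exact h d ι hι
  have hl2 : ((lam.prod lam).prod μ).map (fun ω => mrg ι ω.1.2 ω.2.2) = lam := by
    have e : (fun ω : ((ℕ → Fin d × Bool) × (ℕ → Fin d × Bool)) × (Str × Str) =>
        mrg ι ω.1.2 ω.2.2) = (fun z : (ℕ → Fin d × Bool) × Str => mrg ι z.1 z.2) ∘
          (Prod.map Prod.snd Prod.snd) := rfl
    rw [e, ← Measure.map_map (meas_mrg ι) (measurable_snd.prodMap measurable_snd),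
      ← Measure.map_prod_map _ _ measurable_snd measurable_snd, Measure.map_snd_prod,
      measure_univ, one_smul, h2]
    exact h d ι hι
  refine ⟨((ℕ → Fin d × Bool) × (ℕ → Fin d × Bool)) × (Str × Str), inferInstance,
    (lam.prod lam).prod μ, inferInstance, fun n ω => x + SD n (mrg ι ω.1.1 ω.2.1),
    fun n ω => y + SD n (mrg ι ω.1.2 ω.2.2), isSRW_of_streamD hd hm1 hl1 x,
    isSRW_of_streamD hd hm2 hl2 y, ?_⟩
  -- the event
  set E : Set (Str × Str) := {ω | Disjoint (Set.range fun n => (x ∘ ι) + SS n ω.1)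
      (Set.range fun m => (y ∘ ι) + SS m ω.2)} with hE
  have hEm : MeasurableSet E := by
    have h3 : E = ⋂ n : ℕ, ⋂ m : ℕ,
        {ω : Str × Str | (x ∘ ι) + SS n ω.1 = (y ∘ ι) + SS m ω.2}ᶜ := by
      ext ω
      rw [hE]
      simp only [Set.mem_ofPred_eq, Set.mem_iInter, Set.mem_compl_iff]
      rw [Set.disjoint_left]
      constructor
      · intro h4 n m h5
        exact h4 ⟨n, rfl⟩ ⟨m, h5.symm⟩
      · rintro h4 z ⟨n, rfl⟩ ⟨m, h5⟩
        exact h4 n m h5.symm
    rw [h3]
    refine MeasurableSet.iInter fun n => MeasurableSet.iInter fun m => MeasurableSet.compl ?_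
    have ha : Measurable fun z : Fin 3 → ℤ => (x ∘ ι) + z := Measurable.of_discrete
    have hb : Measurable fun z : Fin 3 → ℤ => (y ∘ ι) + z := Measurable.of_discrete
    exact measurableSet_eq_fun (ha.comp ((mmeas_SS n).comp measurable_fst))
      (hb.comp ((mmeas_SS m).comp measurable_snd))
  have h5 : ((lam.prod lam).prod μ) (Prod.snd ⁻¹' E) = μ E := by
    rw [← Measure.map_apply measurable_snd hEm, Measure.map_snd_prod, measure_univ, one_smul]
  rw [← h5] at hpos
  refine lt_of_lt_of_le hpos (measure_mono ?_)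
  intro ω hω
  have hω' : Disjoint (Set.range fun n => (x ∘ ι) + SS n ω.2.1)
      (Set.range fun m => (y ∘ ι) + SS m ω.2.2) := hω
  rw [Set.disjoint_left] at hω'
  show Disjoint (Set.range fun n => x + SD n (mrg ι ω.1.1 ω.2.1))
    (Set.range fun m => y + SD m (mrg ι ω.1.2 ω.2.2))
  rw [Set.disjoint_left]
  rintro z ⟨n, rfl⟩ ⟨m, hm⟩
  refine hω' ⟨cnt ι ω.1.1 n, rfl⟩ ⟨cnt ι ω.1.2 m, ?_⟩
  funext j
  have h6 := congrFun hm (ι j)
  simp only [Pi.add_apply] at h6
  rw [coord hι, coord hι] at h6
  exact h6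

end Pool.Agent.Y931.NX
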